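import Mathlib
import Pool.Agent.Helper9.AP3
import Pool.Agent.Helper9.AP3b
import Pool.Agent.Helper9.AP3c

set_option autoImplicit false

namespace Pool.Agent.Results.MP_727445_co.BelowPowersOfThree

/-- `Σ(b_1,…,b_k)`: the set of values of the nonempty subset sums. -/
def subsetSums {k : ℕ} (b : Fin k → ℕ) : Set ℕ :=
  {s | ∃ T : Finset (Fin k), T.Nonempty ∧ ∑ i ∈ T, b i = s}

/-- `S` contains a 3-term arithmetic progression with positive difference. -/
def HasThreeAP (S : Set ℕ) : Prop := ∃ x d : ℕ, 0 < d ∧ x ∈ S ∧ x + d ∈ S ∧ x + 2 * d ∈ S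

/-- positive integers `b_1 < … < b_k` whose subset sums contain no 3-term progression. -/
def Admissible {k : ℕ} (b : Fin k → ℕ) : Prop :=
  (∀ i, 0 < b i) ∧ StrictMono b ∧ ¬ HasThreeAP (subsetSums b)

/-- `g₃(k)`: the minimum of the largest term `b_k` over admissible sequences of length `k`. -/
noncomputable def g3 (k : ℕ) : ℕ :=
  sInf {m | ∃ b : Fin k → ℕ, Admissible b ∧ Finset.univ.sup b = m}

open Pool.Agent.Helper9.AP3

theorem adm_iff {k : ℕ} (b : Fin k → ℕ) :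
    Admissible b ↔ (∀ i, 0 < b i) ∧ StrictMono b ∧ D b := by
  constructor
  · rintro ⟨h1, h2, h3⟩
    exact ⟨h1, h2, D_of_not_hasAP b h2 h1 h3⟩
  · rintro ⟨h1, h2, h3⟩
    exact ⟨h1, h2, not_hasAP_of_D b h3⟩

theorem adm_triple {k : ℕ} (b : Fin k → ℕ) (h : Admissible b) :
    Admissible (Fin.cons 1 (fun i => 3 * b i) : Fin (k + 1) → ℕ) := by
  rw [adm_iff] at h ⊢
  obtain ⟨h1, h2, h3⟩ := h
  refine ⟨?_, ?_, D_triple b h3⟩
  · intro i
    refine Fin.cases ?_ (fun j => ?_) i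
    · simp
    · have := h1 j
      simp only [Fin.cons_succ]
      omega
  · intro i j hij
    revert hij
    refine Fin.cases ?_ (fun j' => ?_) j
    · intro hij
      exact absurd hij (Fin.not_lt_zero i)
    · refine Fin.cases ?_ (fun i' => ?_) i
      · intro _
        have := h1 j'
        simp only [Fin.cons_zero, Fin.cons_succ]
        omega
      · intro hij
        have := h2 (Fin.succ_lt_succ_iff.1 hij)
        simp only [Fin.cons_succ]
        omega

theorem exists_adm (k : ℕ) : ∃ b : Fin k → ℕ, Admissible b := by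
  induction k with
  | zero =>
    refine ⟨fun i => i.elim0, (adm_iff _).2 ⟨fun i => i.elim0, fun i => i.elim0, ?_⟩⟩
    intro δ δ' _ _ _
    funext i
    exact i.elim0
  | succ k ih =>
    obtain ⟨b, hb⟩ := ih
    exact ⟨_, adm_triple b hb⟩

theorem g3_spec (k : ℕ) : ∃ b : Fin k → ℕ, Admissible b ∧ Finset.univ.sup b = g3 k := by
  have hne : {m | ∃ b : Fin k → ℕ, Admissible b ∧ Finset.univ.sup b = m}.Nonempty := by
    obtain ⟨b, hb⟩ := exists_adm k
    exact ⟨_, b, hb, rfl⟩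
  exact Nat.sInf_mem hne

theorem g3_le {k : ℕ} (b : Fin k → ℕ) (hb : Admissible b) (N : ℕ) (h : ∀ i, b i ≤ N) :
    g3 k ≤ N := by
  have h1 : g3 k ≤ Finset.univ.sup b := Nat.sInf_le ⟨b, hb, rfl⟩
  exact h1.trans (Finset.sup_le fun i _ => h i)

theorem le_g3 {k : ℕ} (N : ℕ) (h : ∀ b : Fin k → ℕ, Admissible b → (∀ i, b i < N) → False) :
    N ≤ g3 k ∨ k = 0 := by
  by_cases hk : k = 0
  · exact Or.inr hk
  left
  by_contra hcon
  push Not at hcon
  obtain ⟨b, hb, hs⟩ := g3_spec k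
  exact h b hb fun i => lt_of_le_of_lt (hs ▸ Finset.le_sup (f := b) (Finset.mem_univ i)) hcon

theorem g3_succ (k : ℕ) (hk : 1 ≤ k) : g3 (k + 1) ≤ 3 * g3 k := by
  obtain ⟨b, hb, hs⟩ := g3_spec k
  refine g3_le _ (adm_triple b hb) _ fun i => ?_
  refine Fin.cases ?_ (fun j => ?_) i
  · have h1 : b ⟨0, hk⟩ ≤ g3 k := hs ▸ Finset.le_sup (f := b) (Finset.mem_univ _)
    have h2 := hb.1 ⟨0, hk⟩
    simp only [Fin.cons_zero]
    omega
  · have h1 : b j ≤ g3 k := hs ▸ Finset.le_sup (f := b) (Finset.mem_univ _)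
    simp only [Fin.cons_succ]
    omega

theorem g3_add (k n : ℕ) (hk : 1 ≤ k) : g3 (k + n) ≤ g3 k * 3 ^ n := by
  induction n with
  | zero => simp
  | succ n ih =>
    have := g3_succ (k + n) (by omega)
    rw [pow_succ, ← mul_assoc, ← add_assoc]
    omega

theorem adm_list (L : List ℕ) (h1 : ∀ i, 0 < L.get i) (h2 : ∀ i j, i < j → L.get i < L.get j)
    (h3 : chk L = true) : Admissible L.get :=
  (adm_iff _).2 ⟨h1, fun i j hij => h2 i j hij, (chk_iff L).1 h3⟩

theorem g3_14 : g3 14 ≤ 896001 := by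
  have h : Admissible base14.get := by
    refine adm_list base14 ?_ ?_ chk_base14
    · decide +kernel
    · decide +kernel
  have h2 : ∀ i : Fin base14.length, base14.get i ≤ 896001 := by decide +kernel
  exact g3_le (k := base14.length) base14.get h 896001 h2

theorem up1 : g3 1 ≤ 1 :=
  g3_le (k := 1) [1].get (adm_list [1] (by decide) (by decide) (by decide +kernel)) 1 (by decide)

theorem up2 : g3 2 ≤ 3 :=
  g3_le (k := 2) [1, 3].get (adm_list [1, 3] (by decide) (by decide) (by decide +kernel)) 3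
    (by decide)

theorem up3 : g3 3 ≤ 8 :=
  g3_le (k := 3) [5, 7, 8].get
    (adm_list [5, 7, 8] (by decide) (by decide) (by decide +kernel)) 8 (by decide)

theorem up4 : g3 4 ≤ 22 :=
  g3_le (k := 4) [7, 19, 21, 22].get
    (adm_list [7, 19, 21, 22] (by decide) (by decide) (by decide +kernel)) 22 (by decide)

theorem no2 : ∀ a < 3, ∀ b < 3, a < b → 0 < a → chk [a, b] = false := by decide +kernel

theorem no3' : ∀ a : Fin 8, ∀ b : Fin 8, a < b → ∀ c : Fin 8, b < c → 0 < a.1 →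
    chk [a.1, b.1, c.1] = false := by
  decide +kernel

theorem no3 (a : ℕ) (ha : a < 8) (b : ℕ) (hb : b < 8) (hab : a < b) (c : ℕ) (hc : c < 8)
    (hbc : b < c) (h0 : 0 < a) : chk [a, b, c] = false :=
  no3' ⟨a, ha⟩ ⟨b, hb⟩ hab ⟨c, hc⟩ hbc h0

theorem no4' : ∀ a : Fin 22, ∀ b : Fin 22, a < b → ∀ c : Fin 22, b < c → ∀ d : Fin 22, c < d →
    0 < a.1 → chk [a.1, b.1, c.1, d.1] = false := by
  decide +kernel

theorem no4 (a : ℕ) (ha : a < 22) (b : ℕ) (hb : b < 22) (hab : a < b) (c : ℕ) (hc : c < 22)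
    (hbc : b < c) (d : ℕ) (hd : d < 22) (hcd : c < d) (h0 : 0 < a) : chk [a, b, c, d] = false :=
  no4' ⟨a, ha⟩ ⟨b, hb⟩ hab ⟨c, hc⟩ hbc ⟨d, hd⟩ hcd h0

theorem low1 : 1 ≤ g3 1 := by
  refine (le_g3 1 ?_).resolve_right (by norm_num)
  intro b hb h
  have h1 := hb.1 0
  have h2 := h 0
  omega

theorem low2 : 3 ≤ g3 2 := by
  refine (le_g3 3 ?_).resolve_right (by norm_num)
  intro b hb h
  obtain ⟨h1, h2, h3⟩ := (adm_iff b).1 hb
  have e : ([b 0, b 1].get : Fin 2 → ℕ) = b := by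
    funext i; fin_cases i <;> rfl
  have hc : chk [b 0, b 1] = true := by
    rw [chk_iff]
    show D ([b 0, b 1].get : Fin 2 → ℕ)
    rw [e]; exact h3
  rw [no2 (b 0) (h 0) (b 1) (h 1) (h2 (by decide)) (h1 0)] at hc
  exact absurd hc (by decide)

theorem low3 : 8 ≤ g3 3 := by
  refine (le_g3 8 ?_).resolve_right (by norm_num)
  intro b hb h
  obtain ⟨h1, h2, h3⟩ := (adm_iff b).1 hb
  have e : ([b 0, b 1, b 2].get : Fin 3 → ℕ) = b := by
    funext i; fin_cases i <;> rfl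
  have hc : chk [b 0, b 1, b 2] = true := by
    rw [chk_iff]
    show D ([b 0, b 1, b 2].get : Fin 3 → ℕ)
    rw [e]; exact h3
  rw [no3 (b 0) (h 0) (b 1) (h 1) (h2 (by decide)) (b 2) (h 2) (h2 (by decide)) (h1 0)] at hc
  exact absurd hc (by decide)

theorem low4 : 22 ≤ g3 4 := by
  refine (le_g3 22 ?_).resolve_right (by norm_num)
  intro b hb h
  obtain ⟨h1, h2, h3⟩ := (adm_iff b).1 hb
  have e : ([b 0, b 1, b 2, b 3].get : Fin 4 → ℕ) = b := by
    funext i; fin_cases i <;> rfl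
  have hc : chk [b 0, b 1, b 2, b 3] = true := by
    rw [chk_iff]
    show D ([b 0, b 1, b 2, b 3].get : Fin 4 → ℕ)
    rw [e]; exact h3
  rw [no4 (b 0) (h 0) (b 1) (h 1) (h2 (by decide)) (b 2) (h 2) (h2 (by decide)) (b 3) (h 3)
    (h2 (by decide)) (h1 0)] at hc
  exact absurd hc (by decide)

/-- `g₃(k) = 3^{k-1}` fails for every `k ≥ 3`; exact values for `k ≤ 4`; asymptotically
`g₃(k) ≤ 0.562 · 3^{k-1}`; and `g₃(k) ≥ ((9^k - 1)/(8k))^{1/2}`. -/
theorem result :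
    (g3 1 = 1 ∧ g3 2 = 3 ∧ g3 3 = 8 ∧ g3 4 = 22) ∧
    (∀ k, 3 ≤ k → g3 k < 3 ^ (k - 1)) ∧
    (∀ k, 1 ≤ k → g3 (k + 1) ≤ 3 * g3 k) ∧
    (∀ k, 14 ≤ k → g3 k ≤ 896001 * 3 ^ (k - 14)) ∧
    (∀ k, 9 ^ k ≤ 1 + 8 * k * g3 k ^ 2) := by
  refine ⟨⟨le_antisymm up1 low1, le_antisymm up2 low2, le_antisymm up3 low3,
    le_antisymm up4 low4⟩, ?_, g3_succ, ?_, ?_⟩
  · intro k hk
    obtain ⟨n, rfl⟩ := Nat.exists_eq_add_of_le hk
    have h1 := g3_add 3 n (by norm_num)
    have h2 := up3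
    have h3 : 3 + n - 1 = n + 2 := by omega
    rw [h3, pow_add]
    have h4 : 0 < 3 ^ n := by positivity
    nlinarith
  · intro k hk
    obtain ⟨n, rfl⟩ := Nat.exists_eq_add_of_le hk
    have h1 := g3_add 14 n (by norm_num)
    have h2 := g3_14
    rw [Nat.add_sub_cancel_left]
    exact h1.trans (Nat.mul_le_mul_right _ h2)
  · intro k
    obtain ⟨b, hb, hs⟩ := g3_spec k
    obtain ⟨h1, h2, h3⟩ := (adm_iff b).1 hb
    refine (variance_bound b h3).trans ?_
    have h4 : ∑ i, b i ^ 2 ≤ k * g3 k ^ 2 := by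
      have : ∑ i, b i ^ 2 ≤ ∑ _i : Fin k, g3 k ^ 2 := by
        refine Finset.sum_le_sum fun i _ => ?_
        have : b i ≤ g3 k := hs ▸ Finset.le_sup (f := b) (Finset.mem_univ _)
        exact Nat.pow_le_pow_left this 2
      simpa using this
    nlinarith

end Pool.Agent.Results.MP_727445_co.BelowPowersOfThree
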